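import Pool.Agent.TH744.LR.Prot
import Pool.Agent.Y395.RK.Pert

set_option autoImplicit false

/-! Random perturbations of an arbitrary matrix along an arbitrary set of positions: protocols,
bipartite graphs and counting. -/

namespace Pool.Agent.Y395.RM

open Finset
open Pool.Agent.TH744.LR (Prot)
open Pool.Agent.Y395.RK (rk IsM exists_cover flip_bound pert_rank)

section

variable {X Y : Type}

theorem prot_rows (F : X → Y → Bool) (A : Finset X) (β : ℕ) (hA : A.card ≤ 2 ^ β) :
    ∃ G : X → Y → Bool, Prot G (β + 1) ∧ ∀ x ∈ A, ∀ y, G x y = F x y := by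
  classical
  rcases A.eq_empty_or_nonempty with h | ⟨a0, ha0⟩
  · exact ⟨fun _ _ => true, (Prot.const true).mono (by omega), fun x hx => by
      rw [h] at hx
      exact absurd hx (notMem_empty _)⟩
  · have h1 : Prot (fun (x : {x // x ∈ A}) (y : Y) => F x.1 y) (β + 1) :=
      Prot.of_card _ β (by rwa [Fintype.card_coe])
    refine ⟨_, h1.lift (fun x : X => if h : x ∈ A then ⟨x, h⟩ else ⟨a0, ha0⟩) id, fun x hx y => ?_⟩
    simp only [dif_pos hx, id]

theorem prot_cols (F : X → Y → Bool) (B : Finset Y) (β : ℕ) (hB : B.card ≤ 2 ^ β) :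
    ∃ G : X → Y → Bool, Prot G (β + 1) ∧ ∀ y ∈ B, ∀ x, G x y = F x y := by
  obtain ⟨G, h1, h2⟩ := prot_rows (fun y x => F x y) B β hB
  exact ⟨fun x y => G y x, h1.swap, fun y hy x => h2 y hy x⟩

theorem prot_cover (F F0 : X → Y → Bool) (A : Finset X) (B : Finset Y) (β c : ℕ)
    (hA : A.card ≤ 2 ^ β) (hB : B.card ≤ 2 ^ β)
    (h : ∀ x y, x ∉ A → y ∉ B → F x y = F0 x y) (h0 : Prot F0 c) :
    Prot F (2 + max (β + 1) c) := by
  classical
  obtain ⟨G, hG, hG'⟩ := prot_rows F A β hA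
  obtain ⟨G2, hG2, hG2'⟩ := prot_cols F B β hB
  have h1 := Prot.bind (Prot.bob (X := X) (fun y : Y => decide (y ∈ B)))
    (F := fun v x y => if v then G2 x y else F0 x y) (b := max (β + 1) c) (by
      intro v
      cases v
      · simpa using h0.mono (le_max_right _ _)
      · simpa using hG2.mono (le_max_left _ _))
  have h2 := Prot.bind (Prot.alice (Y := Y) (fun x : X => decide (x ∈ A)))
    (F := fun v x y => if v then G x y else (if decide (y ∈ B) then G2 x y else F0 x y))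
    (b := 1 + max (β + 1) c) (by
      intro v
      cases v
      · simpa using h1
      · simpa using hG.mono (by omega))
  have e : (fun x y => if decide (x ∈ A) then G x y else
      (if decide (y ∈ B) then G2 x y else F0 x y)) = F := by
    funext x y
    by_cases hx : x ∈ A
    · simp [hx, hG' x hx y]
    · by_cases hy : y ∈ B
      · simp [hx, hy, hG2' y hy x]
      · simp [hx, hy, h x y hx hy]
  rw [e] at h2
  rwa [show 1 + (1 + max (β + 1) c) = 2 + max (β + 1) c by ring] at h2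

/-- The bipartite graph of a relation. -/
def bg (S : X → Y → Prop) : SimpleGraph (X ⊕ Y) :=
  SimpleGraph.fromRel (fun a b => ∃ x y, a = Sum.inl x ∧ b = Sum.inr y ∧ S x y)

theorem bg_lr (S : X → Y → Prop) (x : X) (y : Y) : (bg S).Adj (Sum.inl x) (Sum.inr y) ↔ S x y := by
  unfold bg
  rw [SimpleGraph.fromRel_adj]
  constructor
  · rintro ⟨-, ⟨x', y', h1, h2, h3⟩ | ⟨x', y', h1, h2, h3⟩⟩
    · rw [Sum.inl.inj h1, Sum.inr.inj h2]
      exact h3
    · simp at h1
  · intro h
    exact ⟨by simp, Or.inl ⟨x, y, rfl, rfl, h⟩⟩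

theorem bg_rl (S : X → Y → Prop) (x : X) (y : Y) : (bg S).Adj (Sum.inr y) (Sum.inl x) ↔ S x y := by
  rw [SimpleGraph.adj_comm, bg_lr]

theorem bg_ll (S : X → Y → Prop) (x x' : X) : ¬ (bg S).Adj (Sum.inl x) (Sum.inl x') := by
  unfold bg
  rw [SimpleGraph.fromRel_adj]
  rintro ⟨-, ⟨_, _, h1, h2, h3⟩ | ⟨_, _, h1, h2, h3⟩⟩ <;> simp at h2

theorem bg_rr (S : X → Y → Prop) (y y' : Y) : ¬ (bg S).Adj (Sum.inr y) (Sum.inr y') := by
  unfold bg
  rw [SimpleGraph.fromRel_adj]
  rintro ⟨-, ⟨_, _, h1, h2, h3⟩ | ⟨_, _, h1, h2, h3⟩⟩ <;> simp at h1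

theorem bg_inj {S T : X → Y → Prop} (h : bg S = bg T) : ∀ x y, S x y ↔ T x y := by
  intro x y
  rw [← bg_lr S, ← bg_lr T, h]

theorem symm_bg (F0 F : X → Y → Bool) :
    symmDiff (bg (fun x y => F0 x y = true)) (bg (fun x y => F x y ≠ F0 x y)) =
      bg (fun x y => F x y = true) := by
  ext a b
  rw [symmDiff_def, SimpleGraph.sup_adj, SimpleGraph.sdiff_adj, SimpleGraph.sdiff_adj]
  rcases a with x | y <;> rcases b with x' | y'
  · simp [bg_ll]
  · simp only [bg_lr]
    cases F0 x y' <;> cases F x y' <;> simp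
  · simp only [bg_rl]
    cases F0 x' y <;> cases F x' y <;> simp
  · simp [bg_rr]

/-- counting perturbations -/
theorem count (F0 : X → Y → Bool) (E : X → Y → Prop) (P : SimpleGraph (X ⊕ Y) → Prop) :
    {F : X → Y → Bool | (∀ x y, ¬ E x y → F x y = F0 x y) ∧
      P (bg (fun x y => F x y = true))}.ncard =
    {H : SimpleGraph (X ⊕ Y) | H ≤ bg E ∧ P (symmDiff (bg (fun x y => F0 x y = true)) H)}.ncard := by
  classical
  have hinj : Function.Injective (fun F : X → Y → Bool => bg (fun x y => F x y ≠ F0 x y)) := by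
    intro F G h
    funext x y
    have h1 := bg_inj h x y
    by_cases h2 : F x y = F0 x y
    · by_cases h3 : G x y = F0 x y
      · rw [h2, h3]
      · exact absurd h2 (h1.2 h3)
    · have h3 := h1.1 h2
      cases hF : F x y <;> cases hG : G x y <;> cases h0 : F0 x y <;> simp_all
  rw [← Set.ncard_image_of_injective _ hinj]
  congr 1
  ext H
  simp only [Set.mem_image, Set.mem_setOf_eq]
  constructor
  · rintro ⟨F, ⟨h1, h2⟩, rfl⟩
    refine ⟨?_, by rwa [symm_bg]⟩
    intro a b hab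
    rcases a with x | y <;> rcases b with x' | y'
    · exact absurd hab (bg_ll _ _ _)
    · rw [bg_lr] at hab ⊢
      by_contra hE
      exact hab (h1 _ _ hE)
    · rw [bg_rl] at hab ⊢
      by_contra hE
      exact hab (h1 _ _ hE)
    · exact absurd hab (bg_rr _ _ _)
  · rintro ⟨h1, h2⟩
    have e : bg (fun x y => (if H.Adj (Sum.inl x) (Sum.inr y) then !F0 x y else F0 x y) ≠ F0 x y) =
        H := by
      ext a b
      rcases a with x | y <;> rcases b with x' | y'
      · exact ⟨fun h => absurd h (bg_ll _ _ _), fun h => absurd (h1 h) (bg_ll _ _ _)⟩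
      · rw [bg_lr]
        by_cases h : H.Adj (Sum.inl x) (Sum.inr y') <;> simp [h]
      · rw [bg_rl, SimpleGraph.adj_comm]
        by_cases h : H.Adj (Sum.inl x') (Sum.inr y) <;> simp [h]
      · exact ⟨fun h => absurd h (bg_rr _ _ _), fun h => absurd (h1 h) (bg_rr _ _ _)⟩
    refine ⟨fun x y => if H.Adj (Sum.inl x) (Sum.inr y) then !F0 x y else F0 x y, ⟨?_, ?_⟩, e⟩
    · intro x y hE
      have : ¬ H.Adj (Sum.inl x) (Sum.inr y) := fun h => hE ((bg_lr E x y).1 (h1 h))
      simp [this]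
    · rw [← symm_bg F0, e]
      exact h2

end

section

variable {X Y : Type} [Fintype X] [Fintype Y]

/-- the rank of the communication matrix -/
noncomputable def R (F : X → Y → Bool) : ℕ :=
  (Matrix.of (fun (x : X) (y : Y) => if F x y then (1 : ℝ) else 0)).rank

theorem adj_blocks (F : X → Y → Bool) : (open scoped Classical in
    (bg (fun x y => F x y = true)).adjMatrix ℝ) =
    Matrix.fromBlocks 0 (Matrix.of (fun (x : X) (y : Y) => if F x y then (1 : ℝ) else 0))
      (Matrix.of (fun (x : X) (y : Y) => if F x y then (1 : ℝ) else 0)).transpose 0 := by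
  classical
  ext a b
  rw [SimpleGraph.adjMatrix_apply]
  rcases a with x | y <;> rcases b with x' | y'
  · simp [bg_ll]
  · simp [bg_lr]
  · simp [bg_rl]
  · simp [bg_rr]

theorem rk_le (F : X → Y → Bool) : rk (bg (fun x y => F x y = true)) ≤ 2 * R F := by
  classical
  unfold rk R
  set M : Matrix X Y ℝ := Matrix.of (fun (x : X) (y : Y) => if F x y then (1 : ℝ) else 0) with hM
  have e : (bg (fun x y => F x y = true)).adjMatrix ℝ = Matrix.fromBlocks 0 M M.transpose 0 := by
    have := adj_blocks F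
    rw [hM]
    convert this
  have h1 : (Matrix.fromRows (1 : Matrix X X ℝ) (0 : Matrix Y X ℝ)) * M *
      (Matrix.fromCols (0 : Matrix Y X ℝ) (1 : Matrix Y Y ℝ)) = Matrix.fromBlocks 0 M 0 0 := by
    rw [Matrix.fromRows_mul, Matrix.fromRows_mul_fromCols]
    simp
  have h2 : (Matrix.fromRows (0 : Matrix X Y ℝ) (1 : Matrix Y Y ℝ)) * M.transpose *
      (Matrix.fromCols (1 : Matrix X X ℝ) (0 : Matrix X Y ℝ)) =
        Matrix.fromBlocks 0 0 M.transpose 0 := by
    rw [Matrix.fromRows_mul, Matrix.fromRows_mul_fromCols]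
    simp
  have h3 : Matrix.fromBlocks 0 M M.transpose 0 =
      (Matrix.fromBlocks 0 M 0 0 : Matrix (X ⊕ Y) (X ⊕ Y) ℝ) +
        Matrix.fromBlocks 0 0 M.transpose 0 := by
    rw [Matrix.fromBlocks_add]
    simp
  have h4 : (Matrix.fromBlocks 0 M 0 0 : Matrix (X ⊕ Y) (X ⊕ Y) ℝ).rank ≤ M.rank := by
    rw [← h1]
    exact (Matrix.rank_mul_le_left _ _).trans (Matrix.rank_mul_le_right _ _)
  have h5 : (Matrix.fromBlocks 0 0 M.transpose 0 : Matrix (X ⊕ Y) (X ⊕ Y) ℝ).rank ≤ M.rank := by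
    rw [← h2]
    refine (Matrix.rank_mul_le_left _ _).trans ((Matrix.rank_mul_le_right _ _).trans ?_)
    rw [Matrix.rank_transpose]
  have h6 : ((bg (fun x y => F x y = true)).adjMatrix ℝ).rank ≤ 2 * M.rank := by
    rw [e, h3]
    have h7 := Pool.Agent.Y395.RK.rank_sub_le'
      (Matrix.fromBlocks 0 M 0 0 : Matrix (X ⊕ Y) (X ⊕ Y) ℝ)
      (-(Matrix.fromBlocks 0 0 M.transpose 0 : Matrix (X ⊕ Y) (X ⊕ Y) ℝ))
    rw [sub_neg_eq_add] at h7
    have h8 : (-(Matrix.fromBlocks 0 0 M.transpose 0 : Matrix (X ⊕ Y) (X ⊕ Y) ℝ)).rank ≤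
        (Matrix.fromBlocks 0 0 M.transpose 0 : Matrix (X ⊕ Y) (X ⊕ Y) ℝ).rank := by
      rw [show (-(Matrix.fromBlocks 0 0 M.transpose 0 : Matrix (X ⊕ Y) (X ⊕ Y) ℝ)) =
        (-(1 : Matrix (X ⊕ Y) (X ⊕ Y) ℝ)) * Matrix.fromBlocks 0 0 M.transpose 0 by simp]
      exact Matrix.rank_mul_le_right _ _
    omega
  convert h6

theorem le_rk (F : X → Y → Bool) : R F ≤ rk (bg (fun x y => F x y = true)) := by
  classical
  unfold rk R
  set M : Matrix X Y ℝ := Matrix.of (fun (x : X) (y : Y) => if F x y then (1 : ℝ) else 0) with hM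
  have e : (bg (fun x y => F x y = true)).adjMatrix ℝ = Matrix.fromBlocks 0 M M.transpose 0 := by
    have := adj_blocks F
    rw [hM]
    convert this
  have h1 : (Matrix.fromCols (1 : Matrix X X ℝ) (0 : Matrix X Y ℝ)) *
      (Matrix.fromBlocks 0 M M.transpose 0) *
      (Matrix.fromRows (0 : Matrix X Y ℝ) (1 : Matrix Y Y ℝ)) = M := by
    rw [Matrix.fromCols_mul_fromBlocks, Matrix.fromCols_mul_fromRows]
    simp
  have h2 : M.rank ≤ ((bg (fun x y => F x y = true)).adjMatrix ℝ).rank := by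
    rw [e]
    conv_lhs => rw [← h1]
    exact (Matrix.rank_mul_le_left _ _).trans (Matrix.rank_mul_le_right _ _)
  convert h2

end

end Pool.Agent.Y395.RM
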