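import Pool.Agent.Y395.RM.A

set_option autoImplicit false

/-! Random perturbations of an arbitrary matrix along an arbitrary set of positions: the bounds. -/

namespace Pool.Agent.Y395.RM

open Finset
open Pool.Agent.TH744.LR (Prot)
open Pool.Agent.Y395.RK (rk IsM exists_cover flip_bound pert_rank lmono lmul ladd)

section

variable {X Y : Type} [Fintype X] [Fintype Y]

/-- the number of perturbations of `F0` along `E` with the property `P` -/
noncomputable def num (F0 : X → Y → Bool) (E : X → Y → Prop) (P : (X → Y → Bool) → Prop) : ℕ :=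
  {F : X → Y → Bool | (∀ x y, ¬ E x y → F x y = F0 x y) ∧ P F}.ncard

theorem num_mono {F0 : X → Y → Bool} {E : X → Y → Prop} {P Q : (X → Y → Bool) → Prop}
    (h : ∀ F : X → Y → Bool, (∀ x y, ¬ E x y → F x y = F0 x y) → P F → Q F) :
    num F0 E P ≤ num F0 E Q := by
  classical
  apply Set.ncard_le_ncard _ (Set.toFinite _)
  rintro F ⟨h1, h2⟩
  exact ⟨h1, h F h1 h2⟩

/-- few perturbations have small rank -/
theorem low_rank (F0 : X → Y → Bool) (E : X → Y → Prop) (M : Finset (Sym2 (X ⊕ Y)))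
    (hM : IsM (bg E) M) :
    (num F0 E (fun F => 8 * R F < M.card) : ℝ) ≤
      (2 : ℝ) ^ (-((M.card : ℝ) / 6)) * (num F0 E (fun _ => True) : ℝ) := by
  classical
  have h1 := flip_bound (bg (fun x y => F0 x y = true)) (bg E) M hM
  have h2 : num F0 E (fun F => 8 * R F < M.card) ≤
      num F0 E (fun F => 4 * rk (bg (fun x y => F x y = true)) < M.card) := by
    refine num_mono fun F _ h => ?_
    have := rk_le F
    omega
  have h3 : num F0 E (fun F => 4 * rk (bg (fun x y => F x y = true)) < M.card) =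
      {H : SimpleGraph (X ⊕ Y) | H ≤ bg E ∧
        4 * rk (symmDiff (bg (fun x y => F0 x y = true)) H) < M.card}.ncard :=
    count F0 E (fun G => 4 * rk G < M.card)
  have h4 : num F0 E (fun _ => True) = {H : SimpleGraph (X ⊕ Y) | H ≤ bg E}.ncard := by
    have := count F0 E (fun _ => True)
    simp only [and_true] at this
    unfold num
    simpa using this
  rw [h4]
  refine le_trans ?_ h1
  rw [← h3]
  exact_mod_cast h2

/-- the lines of a vertex cover -/
theorem lines (E : X → Y → Prop) (W : Finset (X ⊕ Y))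
    (hW : ∀ a b, a ∉ W → b ∉ W → ¬ (bg E).Adj a b) :
    ∃ (A : Finset X) (B : Finset Y), A.card + B.card ≤ W.card ∧
      ∀ x y, x ∉ A → y ∉ B → ¬ E x y := by
  classical
  refine ⟨univ.filter (fun x => Sum.inl x ∈ W), univ.filter (fun y => Sum.inr y ∈ W), ?_, ?_⟩
  · rw [← card_image_of_injective _ (Sum.inl_injective (α := X) (β := Y)),
      ← card_image_of_injective _ (Sum.inr_injective (α := X) (β := Y)),
      ← card_union_of_disjoint]
    · apply card_le_card
      intro a ha
      rcases mem_union.1 ha with h | h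
      · obtain ⟨x, hx, rfl⟩ := mem_image.1 h
        exact (mem_filter.1 hx).2
      · obtain ⟨x, hx, rfl⟩ := mem_image.1 h
        exact (mem_filter.1 hx).2
    · rw [disjoint_left]
      rintro a h h'
      obtain ⟨x, hx, rfl⟩ := mem_image.1 h
      obtain ⟨y, hy, hxy⟩ := mem_image.1 h'
      simp at hxy
  · intro x y hx hy h
    have h1 : Sum.inl x ∉ W := fun h => hx (mem_filter.2 ⟨mem_univ _, h⟩)
    have h2 : Sum.inr y ∉ W := fun h => hy (mem_filter.2 ⟨mem_univ _, h⟩)
    exact hW _ _ h1 h2 ((bg_lr E x y).2 h)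

/-- rank of the starting matrix -/
theorem rank_start (F0 F : X → Y → Bool) (E : X → Y → Prop) (W : Finset (X ⊕ Y))
    (hW : ∀ a b, a ∉ W → b ∉ W → ¬ (bg E).Adj a b)
    (hF : ∀ x y, ¬ E x y → F x y = F0 x y) : R F0 ≤ 2 * R F + 2 * W.card := by
  have h1 := pert_rank (bg (fun x y => F0 x y = true)) (bg E) (bg (fun x y => F x y ≠ F0 x y)) (by
    intro a b hab
    rcases a with x | y <;> rcases b with x' | y'
    · exact absurd hab (bg_ll _ _ _)
    · rw [bg_lr] at hab ⊢
      by_contra hE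
      exact hab (hF _ _ hE)
    · rw [bg_rl] at hab ⊢
      by_contra hE
      exact hab (hF _ _ hE)
    · exact absurd hab (bg_rr _ _ _)) W hW
  rw [symm_bg] at h1
  have h2 := le_rk F0
  have h3 := rk_le F
  omega

/-- The bound for perturbations of large rank. -/
theorem good (F0 F : X → Y → Bool) (E : X → Y → Prop) (W : Finset (X ⊕ Y))
    (hW : ∀ a b, a ∉ W → b ∉ W → ¬ (bg E).Adj a b)
    (hF : ∀ x y, ¬ E x y → F x y = F0 x y) (hr : W.card ≤ 16 * R F) (c : ℕ) (h0 : Prot F0 c) :
    ∃ b : ℕ, Prot F b ∧ (b : ℝ) ≤ max (c : ℝ) (Real.logb 2 (R F : ℝ) + 6) + 2 := by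
  classical
  obtain ⟨A, B, hAB, hE⟩ := lines E W hW
  have hF' : ∀ x y, x ∉ A → y ∉ B → F x y = F0 x y := fun x y hx hy => hF x y (hE x y hx hy)
  rcases Nat.eq_zero_or_pos (R F) with h | h
  · refine ⟨_, prot_cover F F0 A B 0 c (by omega) (by omega) hF' h0, ?_⟩
    have h1 : max (0 + 1 : ℝ) (c : ℝ) ≤ max (c : ℝ) (Real.logb 2 (R F : ℝ) + 6) := by
      rw [h, Nat.cast_zero, Real.logb_zero]
      exact max_le (le_trans (by norm_num) (le_max_right _ _)) (le_max_left _ _)
    have h2 : ((2 + max (0 + 1) c : ℕ) : ℝ) = 2 + max (0 + 1 : ℝ) (c : ℝ) := by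
      push_cast
      rw [zero_add]
    rw [h2]
    linarith
  · have hp := Nat.le_pow_clog (b := 2) (by norm_num) (16 * R F)
    refine ⟨_, prot_cover F F0 A B (Nat.clog 2 (16 * R F)) c (by omega) (by omega) hF' h0, ?_⟩
    have hlt := Nat.pow_pred_clog_lt_self (b := 2) (by norm_num) (x := 16 * R F) (by omega)
    have hpos : 0 < Nat.clog 2 (16 * R F) := Nat.clog_pos (by norm_num) (by omega)
    have h1 : ((Nat.clog 2 (16 * R F) : ℕ) : ℝ) - 1 ≤ 4 + Real.logb 2 (R F : ℝ) := by
      have h2 : (2 : ℝ) ^ (Nat.clog 2 (16 * R F) - 1) ≤ 16 * (R F : ℝ) := by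
        have : 2 ^ (Nat.clog 2 (16 * R F) - 1) ≤ 16 * R F := by
          simpa [Nat.pred_eq_sub_one] using hlt.le
        exact_mod_cast this
      have h3 := Real.logb_le_logb_of_le (b := 2) (by norm_num) (by positivity) h2
      rw [Real.logb_pow, Real.logb_self_eq_one (by norm_num), mul_one,
        Real.logb_mul (by norm_num) (by positivity)] at h3
      have h4 : Real.logb 2 16 = 4 := by
        rw [show (16 : ℝ) = 2 ^ (4 : ℕ) by norm_num, Real.logb_pow,
          Real.logb_self_eq_one (by norm_num)]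
        norm_num
      rw [h4, Nat.cast_sub hpos, Nat.cast_one] at h3
      exact h3
    push_cast
    have h5 : max (((Nat.clog 2 (16 * R F) : ℕ) : ℝ) + 1) (c : ℝ) ≤
        max (c : ℝ) (Real.logb 2 (R F : ℝ) + 6) :=
      max_le (le_trans (by linarith) (le_max_right _ _)) (le_max_left _ _)
    linarith

theorem llog {a b : ℕ} (h : a ≤ b) : Real.logb 2 (a : ℝ) ≤ Real.logb 2 (b : ℝ) := by
  unfold Real.logb
  exact div_le_div_of_nonneg_right (lmono h) (Real.log_nonneg (by norm_num))

theorem llog_mul (a b : ℕ) : Real.logb 2 ((a * b : ℕ) : ℝ) ≤ Real.logb 2 (a : ℝ) + Real.logb 2 (b : ℝ) := by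
  unfold Real.logb
  rw [← add_div]
  exact div_le_div_of_nonneg_right (lmul a b) (Real.log_nonneg (by norm_num))

theorem llog_nonneg (a : ℕ) : 0 ≤ Real.logb 2 (a : ℝ) := by
  unfold Real.logb
  exact div_nonneg (Real.log_natCast_nonneg _) (Real.log_nonneg (by norm_num))

/-- the rank of the starting matrix, up to constants -/
theorem start_log {r0 r K : ℕ} (h : r0 ≤ 2 * r + K) :
    Real.logb 2 (r0 : ℝ) ≤ Real.logb 2 (r : ℝ) + Real.logb 2 ((2 + K : ℕ) : ℝ) := by
  rcases Nat.eq_zero_or_pos r with hr | hr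
  · have h1 : r0 ≤ 2 + K := by omega
    have := llog h1
    have := llog_nonneg r
    linarith
  · have h1 : r0 ≤ r * (2 + K) := by nlinarith
    exact (llog h1).trans (llog_mul _ _)

/-- **all but a proportion `ε` of the perturbations** -/
theorem pert (ε : ℝ) (hε : 0 < ε) : ∃ C : ℝ, 0 ≤ C ∧
    ∀ (X Y : Type) [Fintype X] [Fintype Y] (F0 : X → Y → Bool) (E : X → Y → Prop) (c : ℕ),
      Prot F0 c →
      (num F0 E (fun F => ¬ ((∃ b : ℕ, Prot F b ∧
        (b : ℝ) ≤ max (c : ℝ) (Real.logb 2 (R F : ℝ)) + C) ∧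
        Real.logb 2 (R F0 : ℝ) ≤ Real.logb 2 (R F : ℝ) + C)) : ℝ) ≤
      ε * (num F0 E (fun _ => True) : ℝ) := by
  obtain ⟨j, hj⟩ := exists_pow_lt_of_lt_one hε (by norm_num : (1 / 2 : ℝ) < 1)
  set K : ℕ := 6 * j with hK
  set C : ℝ := 8 + (2 * K + 3 : ℕ) + Real.logb 2 ((2 + 4 * K : ℕ) : ℝ) +
    Real.logb 2 ((34 : ℕ) : ℝ) with hC
  have hC1 := llog_nonneg (2 + 4 * K)
  have hC2 := llog_nonneg 34
  have hC3 : (0 : ℝ) ≤ ((2 * K + 3 : ℕ) : ℝ) := Nat.cast_nonneg _
  refine ⟨C, by positivity, fun X Y _ _ F0 E c h0 => ?_⟩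
  classical
  obtain ⟨M, W, hM, hWc, hW⟩ := exists_cover (bg E)
  by_cases hMK : M.card ≤ K
  · have hempty : num F0 E (fun F => ¬ ((∃ b : ℕ, Prot F b ∧
        (b : ℝ) ≤ max (c : ℝ) (Real.logb 2 (R F : ℝ)) + C) ∧
        Real.logb 2 (R F0 : ℝ) ≤ Real.logb 2 (R F : ℝ) + C)) = 0 := by
      unfold num
      rw [Set.ncard_eq_zero (Set.toFinite _), Set.eq_empty_iff_forall_notMem]
      rintro F ⟨hF, hn⟩
      apply hn
      constructor
      · obtain ⟨A, B, hAB, hE⟩ := lines E W hW
        have h2 : 2 * K ≤ 2 ^ (2 * K) := Nat.lt_two_pow_self.le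
        refine ⟨_, prot_cover F F0 A B (2 * K) c (by omega) (by omega)
          (fun x y hx hy => hF x y (hE x y hx hy)) h0, ?_⟩
        push_cast
        have h3 : max (2 * (K : ℝ) + 1) (c : ℝ) ≤ (c : ℝ) + (2 * K + 1) :=
          max_le (by linarith [Nat.cast_nonneg (α := ℝ) c]) (by
            have := Nat.cast_nonneg (α := ℝ) K
            linarith)
        have h4 := le_max_left (c : ℝ) (Real.logb 2 (R F : ℝ))
        rw [hC]
        push_cast at hC1 hC2 hC3 ⊢
        linarith
      · have h1 := rank_start F0 F E W hW hF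
        have h2 : R F0 ≤ 2 * R F + 4 * K := by omega
        have h3 := start_log h2
        linarith
    rw [hempty, Nat.cast_zero]
    positivity
  · push Not at hMK
    have h1 := low_rank F0 E M hM
    have h2 : num F0 E (fun F => ¬ ((∃ b : ℕ, Prot F b ∧
        (b : ℝ) ≤ max (c : ℝ) (Real.logb 2 (R F : ℝ)) + C) ∧
        Real.logb 2 (R F0 : ℝ) ≤ Real.logb 2 (R F : ℝ) + C)) ≤
        num F0 E (fun F => 8 * R F < M.card) := by
      refine num_mono fun F hF h4 => ?_
      by_contra hc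
      push Not at hc
      apply h4
      constructor
      · obtain ⟨b, hb1, hb2⟩ := good F0 F E W hW hF (by omega) c h0
        refine ⟨b, hb1, hb2.trans ?_⟩
        have h5 : max (c : ℝ) (Real.logb 2 (R F : ℝ) + 6) ≤
            max (c : ℝ) (Real.logb 2 (R F : ℝ)) + 6 :=
          max_le (by linarith [le_max_left (c : ℝ) (Real.logb 2 (R F : ℝ))])
            (by linarith [le_max_right (c : ℝ) (Real.logb 2 (R F : ℝ))])
        linarith
      · have h5 := rank_start F0 F E W hW hF
        have h6 : R F0 ≤ R F * 34 := by omega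
        have h7 := (llog h6).trans (llog_mul _ _)
        linarith
    have h2' := (Nat.cast_le (α := ℝ)).2 h2
    refine h2'.trans (h1.trans (mul_le_mul_of_nonneg_right ?_ (Nat.cast_nonneg _)))
    have h8 : (2 : ℝ) ^ (-((M.card : ℝ) / 6)) ≤ (2 : ℝ) ^ (-(j : ℝ)) := by
      apply Real.rpow_le_rpow_of_exponent_le (by norm_num)
      have : ((6 * j : ℕ) : ℝ) ≤ (M.card : ℝ) := by exact_mod_cast hMK.le
      push_cast at this
      linarith
    refine h8.trans ?_
    rw [Real.rpow_neg (by norm_num), Real.rpow_natCast]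
    rw [one_div, inv_pow] at hj
    exact hj.le

end

end Pool.Agent.Y395.RM
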